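import Pool.Agent.Lib_MP_2ed15d_an.Main

/-!
# Entire functions of small positive order with `liminf T(r,f)/T(r,f') > 1`
-/

set_option autoImplicit false

open Filter Topology Metric ValueDistribution

namespace Pool.Agent.Results.MP_2ed15d_an.RegularGrowth

/-- The Nevanlinna characteristic `T(r, f)` of an entire function, in Mathlib's value distribution
theory: proximity function for the value infinity plus counting function of the poles. -/
noncomputable def T (f : ℂ → ℂ) (r : ℝ) : ℝ := characteristic f ⊤ r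

/-- The order `limsup log T(r, f) / log r` of `f`, an extended real number. -/
noncomputable def order (f : ℂ → ℂ) : EReal :=
  limsup (fun r : ℝ => ((Real.log (T f r) / Real.log r : ℝ) : EReal)) atTop

/-- The lower order `liminf log T(r, f) / log r` of `f`, an extended real number. -/
noncomputable def lowerOrder (f : ℂ → ℂ) : EReal :=
  liminf (fun r : ℝ => ((Real.log (T f r) / Real.log r : ℝ) : EReal)) atTop

/-- For entire `f` the characteristic is the mean of `log⁺ |f|` over the circle. -/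
private lemma T_eq {f : ℂ → ℂ} (hf : Differentiable ℂ f) (r : ℝ) :
    T f r = (1 / (2 * Real.pi)) *
      ∫ θ in (0 : ℝ)..(2 * Real.pi), Real.posLog ‖f (circleMap 0 r θ)‖ := by
  have h0 : logCounting f ⊤ = 0 := by
    rw [logCounting_top]
    have h1 : 0 ≤ MeromorphicOn.divisor f Set.univ :=
      MeromorphicOn.AnalyticOnNhd.divisor_nonneg
        (fun z _ => hf.analyticAt z)
    rw [negPart_eq_zero.mpr h1, map_zero]
  simp only [T, characteristic, h0, add_zero, proximity_top, Real.circleAverage_def, smul_eq_mul,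
    one_div]

private lemma exp_beats {c ρ : ℝ} (hρ : 0 < ρ) (hc : 0 < c) (A : ℝ) :
    ∀ᶠ r : ℝ in atTop, A + r < Real.exp (c * r ^ ρ) := by
  have h1 := (isLittleO_rpow_exp_pos_mul_atTop (1 / ρ) hc).comp_tendsto
    (tendsto_rpow_atTop hρ)
  have h2 := h1.bound (show (0 : ℝ) < 1 / 2 by norm_num)
  filter_upwards [h2, eventually_gt_atTop |A|, eventually_gt_atTop 0] with r hr1 hr2 hr3
  simp only [Function.comp_apply] at hr1
  have h3 : (r ^ ρ) ^ (1 / ρ) = r := by
    rw [← Real.rpow_mul hr3.le, mul_one_div_cancel hρ.ne', Real.rpow_one]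
  rw [h3, Real.norm_of_nonneg hr3.le, Real.norm_of_nonneg (Real.exp_pos _).le] at hr1
  have := le_abs_self A
  linarith

/-- If `|f|` exceeds `|f(0)| + r` somewhere on the circle of radius `r` then `|f'| > 1` somewhere
on that circle, by the maximum principle. -/
private lemma exists_big {f : ℂ → ℂ} (hf : Differentiable ℂ f) {r : ℝ} (hr : 0 < r)
    {θ₀ : ℝ} (h : ‖f 0‖ + r < ‖f (circleMap 0 r θ₀)‖) :
    ∃ θ ∈ Set.Icc (0 : ℝ) (2 * Real.pi), 1 < ‖deriv f (circleMap 0 r θ)‖ := by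
  by_contra hcon
  push Not at hcon
  have hd : Differentiable ℂ (deriv f) := hf.deriv
  have hsphere : ∀ z ∈ frontier (ball (0 : ℂ) r), ‖deriv f z‖ ≤ 1 := by
    intro z hz
    rw [frontier_ball (0 : ℂ) hr.ne'] at hz
    have h1 : z ∈ circleMap 0 r '' Set.Ioc 0 (2 * Real.pi) := by
      rw [image_circleMap_Ioc, abs_of_pos hr]; exact hz
    obtain ⟨θ, hθ, rfl⟩ := h1
    exact hcon θ (Set.Ioc_subset_Icc_self hθ)
  have hball : ∀ z ∈ closedBall (0 : ℂ) r, ‖deriv f z‖ ≤ 1 := by
    intro z hz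
    rw [← closure_ball (0 : ℂ) hr.ne'] at hz
    exact Complex.norm_le_of_forall_mem_frontier_norm_le isBounded_ball hd.diffContOnCl
      hsphere hz
  have hmem : circleMap 0 r θ₀ ∈ closedBall (0 : ℂ) r := by
    rw [mem_closedBall_zero_iff, norm_circleMap_zero, abs_of_pos hr]
  have h2 := (convex_closedBall (0 : ℂ) r).norm_image_sub_le_of_norm_deriv_le
    (fun z _ => hf z) hball (mem_closedBall_self hr.le) hmem
  rw [sub_zero, norm_circleMap_zero, abs_of_pos hr, one_mul] at h2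
  have h3 : ‖f (circleMap 0 r θ₀)‖ ≤ ‖f 0‖ + ‖f (circleMap 0 r θ₀) - f 0‖ := by
    have := norm_add_le (f 0) (f (circleMap 0 r θ₀) - f 0)
    rwa [add_sub_cancel] at this
  linarith

/-- Then `T(r, f')` is positive. -/
private lemma T_deriv_pos {f : ℂ → ℂ} (hf : Differentiable ℂ f) {r : ℝ} (hr : 0 < r)
    {θ₀ : ℝ} (h : ‖f 0‖ + r < ‖f (circleMap 0 r θ₀)‖) : 0 < T (deriv f) r := by
  have hd : Differentiable ℂ (deriv f) := hf.deriv
  have hc := Pool.Agent.NevChar.continuous_posLog_norm hd.continuous r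
  rw [T_eq hd]
  have hpi := Real.pi_pos
  refine mul_pos (by positivity) ?_
  obtain ⟨θ, hθ, h1⟩ := exists_big hf hr h
  refine intervalIntegral.integral_pos (by positivity) hc.continuousOn
    (fun _ _ => Real.posLog_nonneg) ⟨θ, hθ, ?_⟩
  rw [Real.posLog_apply]
  exact lt_of_lt_of_le (Real.log_pos h1) (le_max_right _ _)

/-- Upper bound of the characteristic. -/
private lemma T_le {f : ℂ → ℂ} (hf : Differentiable ℂ f) {ρ C : ℝ} (hρ : 0 < ρ) (hC : 0 < C)
    (hgrow : ∀ z, ‖f z‖ ≤ Real.exp (C * (1 + ‖z‖ ^ ρ))) {r : ℝ} (hr : 1 ≤ r) :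
    T f r ≤ 2 * C * r ^ ρ := by
  have hr0 : 0 < r := by linarith
  have hpi := Real.pi_pos
  have hrρ : 1 ≤ r ^ ρ := Real.one_le_rpow hr hρ.le
  rw [T_eq hf]
  have h1 : ∫ θ in (0 : ℝ)..(2 * Real.pi), Real.posLog ‖f (circleMap 0 r θ)‖ ≤
      ∫ _θ in (0 : ℝ)..(2 * Real.pi), 2 * C * r ^ ρ := by
    refine intervalIntegral.integral_mono_on (by positivity)
      ((Pool.Agent.NevChar.continuous_posLog_norm hf.continuous r).intervalIntegrable _ _)
      intervalIntegrable_const ?_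
    intro θ _
    calc Real.posLog ‖f (circleMap 0 r θ)‖
        ≤ Real.posLog (Real.exp (C * (1 + r ^ ρ))) := by
          refine Real.posLog_le_posLog (norm_nonneg _) ?_
          have := hgrow (circleMap 0 r θ)
          rwa [norm_circleMap_zero, abs_of_pos hr0] at this
      _ = C * (1 + r ^ ρ) := by
          rw [Real.posLog_apply, Real.log_exp]
          exact max_eq_right (by positivity)
      _ ≤ 2 * C * r ^ ρ := by nlinarith
  rw [intervalIntegral.integral_const, smul_eq_mul, sub_zero] at h1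
  calc (1 / (2 * Real.pi)) * ∫ θ in (0 : ℝ)..(2 * Real.pi), Real.posLog ‖f (circleMap 0 r θ)‖
      ≤ (1 / (2 * Real.pi)) * (2 * Real.pi * (2 * C * r ^ ρ)) :=
        mul_le_mul_of_nonneg_left h1 (by positivity)
    _ = 2 * C * r ^ ρ := by field_simp

/-- Lower bound of the characteristic: `f` is large on an arc. -/
private lemma le_T {f : ℂ → ℂ} (hf : Differentiable ℂ f) {c₁ A r θ₀ : ℝ} (hc₁ : 0 < c₁)
    (hA : 0 ≤ A)
    (h : ∀ θ : ℝ, |θ - θ₀| ≤ c₁ → Real.exp A ≤ ‖f (circleMap 0 r θ)‖) :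
    min c₁ Real.pi / Real.pi * A ≤ T f r := by
  have hpi := Real.pi_pos
  set c' : ℝ := min c₁ Real.pi with hc'
  have hc'0 : 0 < c' := lt_min hc₁ hpi
  set P : ℝ → ℝ := fun θ => Real.posLog ‖f (circleMap 0 r θ)‖ with hP
  have hPc : Continuous P := Pool.Agent.NevChar.continuous_posLog_norm hf.continuous r
  have hPI : ∀ a b, IntervalIntegrable P MeasureTheory.volume a b :=
    fun a b => hPc.intervalIntegrable a b
  have hPper : Function.Periodic P (2 * Real.pi) := by
    intro θ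
    simp only [hP, periodic_circleMap 0 r θ]
  have hshift : ∫ θ in (0 : ℝ)..(2 * Real.pi), P θ =
      ∫ θ in (θ₀ - Real.pi)..(θ₀ + Real.pi), P θ := by
    have := hPper.intervalIntegral_add_eq (θ₀ - Real.pi) 0
    rw [zero_add] at this
    rw [← this]
    congr 1
    ring
  have hsub : ∫ θ in (θ₀ - c')..(θ₀ + c'), P θ ≤
      ∫ θ in (θ₀ - Real.pi)..(θ₀ + Real.pi), P θ := by
    have h1 : c' ≤ Real.pi := min_le_right _ _
    exact intervalIntegral.integral_mono_interval (by linarith) (by linarith) (by linarith)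
      (Eventually.of_forall fun _ => Real.posLog_nonneg) (hPI _ _)
  have harc : 2 * c' * A ≤ ∫ θ in (θ₀ - c')..(θ₀ + c'), P θ := by
    have h1 : ∫ _θ in (θ₀ - c')..(θ₀ + c'), A ≤ ∫ θ in (θ₀ - c')..(θ₀ + c'), P θ := by
      refine intervalIntegral.integral_mono_on (by linarith) intervalIntegrable_const
        (hPI _ _) ?_
      intro θ hθ
      have h2 : c' ≤ c₁ := min_le_left _ _
      have h3 := h θ (by rw [abs_le]; constructor <;> linarith [hθ.1, hθ.2])
      simp only [hP]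
      have h4 := Real.posLog_le_posLog (Real.exp_pos A).le h3
      rwa [Real.posLog_apply, Real.log_exp, max_eq_right hA] at h4
    rw [intervalIntegral.integral_const, smul_eq_mul] at h1
    refine le_trans (le_of_eq ?_) h1
    ring
  rw [T_eq hf]
  change _ ≤ (1 / (2 * Real.pi)) * ∫ θ in (0 : ℝ)..(2 * Real.pi), P θ
  rw [hshift]
  calc c' / Real.pi * A = (1 / (2 * Real.pi)) * (2 * c' * A) := by field_simp
    _ ≤ _ := mul_le_mul_of_nonneg_left (harc.trans hsub) (by positivity)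

/-- Two-sided power bounds give the limit of `log T / log r`. -/
private lemma tendsto_order {g : ℝ → ℝ} {a b ρ : ℝ} (ha : 0 < a) (hb : 0 < b)
    (h : ∀ᶠ r : ℝ in atTop, a * r ^ ρ ≤ g r ∧ g r ≤ b * r ^ ρ) :
    Tendsto (fun r : ℝ => Real.log (g r) / Real.log r) atTop (𝓝 ρ) := by
  have key : ∀ c : ℝ, 0 < c →
      Tendsto (fun r : ℝ => Real.log (c * r ^ ρ) / Real.log r) atTop (𝓝 ρ) := by
    intro c hc
    have h1 : Tendsto (fun r : ℝ => Real.log c / Real.log r + ρ) atTop (𝓝 (0 + ρ)) :=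
      (Real.tendsto_log_atTop.const_div_atTop _).add_const _
    rw [zero_add] at h1
    refine h1.congr' ?_
    filter_upwards [eventually_gt_atTop 1] with r hr
    have hr0 : 0 < r := by linarith
    have hl : Real.log r ≠ 0 := (Real.log_pos hr).ne'
    rw [Real.log_mul hc.ne' (Real.rpow_pos_of_pos hr0 _).ne', Real.log_rpow hr0]
    field_simp
  refine tendsto_of_tendsto_of_tendsto_of_le_of_le' (key a ha) (key b hb) ?_ ?_
  · filter_upwards [h, eventually_gt_atTop 1] with r hr hr1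
    have hr0 : 0 < r := by linarith
    have hl : 0 < Real.log r := Real.log_pos hr1
    have hp : 0 < a * r ^ ρ := mul_pos ha (Real.rpow_pos_of_pos hr0 _)
    exact div_le_div_of_nonneg_right (Real.log_le_log hp hr.1) hl.le
  · filter_upwards [h, eventually_gt_atTop 1] with r hr hr1
    have hr0 : 0 < r := by linarith
    have hl : 0 < Real.log r := Real.log_pos hr1
    have hp : 0 < a * r ^ ρ := mul_pos ha (Real.rpow_pos_of_pos hr0 _)
    exact div_le_div_of_nonneg_right (Real.log_le_log (hp.trans_le hr.1) hr.2) hl.le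

/-- **Full answer to Q1 (negated form).**  For every `d > 0` there is a transcendental entire
function `f` whose order and lower order are equal to one and the same number `ρ`, `0 < ρ < d`
(even `a r^ρ ≤ T(r, f) ≤ b r^ρ`), such that `liminf T(r, f) / T(r, f') > 1`; here `T(r, f')` is
positive for all large `r`. -/
theorem result (d : ℝ) (hd : 0 < d) :
    ∃ (ρ : ℝ) (f : ℂ → ℂ), 0 < ρ ∧ ρ < d ∧ Differentiable ℂ f ∧
      (∀ p : Polynomial ℂ, ∃ z : ℂ, f z ≠ p.eval z) ∧
      order f = ρ ∧ lowerOrder f = ρ ∧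
      (∃ a b : ℝ, 0 < a ∧ 0 < b ∧ ∀ᶠ r : ℝ in atTop, a * r ^ ρ ≤ T f r ∧ T f r ≤ b * r ^ ρ) ∧
      (∀ᶠ r : ℝ in atTop, 0 < T (deriv f) r) ∧
      1 < liminf (fun r : ℝ => ((T f r / T (deriv f) r : ℝ) : EReal)) atTop := by
  obtain ⟨κ, η, hκ, hη, hη1, hgood⟩ :=
    Pool.Agent.NevChar.exists_good_large (max 1000 (8 / d))
  have hκ1 : 1000 ≤ κ := (le_max_left _ _).trans hκ
  have hκ2 : 8 / d ≤ κ := (le_max_right _ _).trans hκ
  have hκ0 : 0 < κ := by linarith
  obtain ⟨f, ρ, C, c₁, c₂, r₀, hf, hf0, hρ0, hρ4, hC, hc₁, hc₂, hgrow, hflat⟩ :=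
    Pool.Agent.NevChar.exists_entire_of_local κ η hκ1 hη hη1
      (Pool.Agent.NevChar.top_local κ η hκ1 hη hη1 hgood)
  have hρd : ρ ≤ d / 2 := by
    refine hρ4.trans ?_
    rw [div_le_iff₀ hd] at hκ2
    rw [div_le_iff₀ hκ0]
    linarith
  have hρ1 : ρ < 1 := by
    refine lt_of_le_of_lt hρ4 ?_
    rw [div_lt_one hκ0]
    linarith
  have hpi := Real.pi_pos
  have hflat' : ∀ r, r₀ ≤ r → ∃ θ₀ : ℝ, ∀ θ : ℝ, |θ - θ₀| ≤ c₁ →
      Real.exp (c₂ * r ^ ρ) ≤ ‖f (circleMap 0 r θ)‖ := by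
    intro r hr
    obtain ⟨θ₀, hθ₀⟩ := hflat r hr
    refine ⟨θ₀, fun θ hθ => le_trans ?_ (hθ₀ θ hθ)⟩
    exact le_mul_of_one_le_right (Real.exp_pos _).le (le_max_left _ _)
  have hbounds : ∀ᶠ r : ℝ in atTop,
      (min c₁ Real.pi / Real.pi * c₂) * r ^ ρ ≤ T f r ∧ T f r ≤ (2 * C) * r ^ ρ := by
    filter_upwards [eventually_ge_atTop r₀, eventually_ge_atTop 1] with r hr hr1
    obtain ⟨θ₀, hθ₀⟩ := hflat' r hr
    have hr0 : 0 < r := by linarith
    refine ⟨?_, T_le hf hρ0 hC hgrow hr1⟩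
    rw [mul_assoc]
    exact le_T hf hc₁ (by positivity) hθ₀
  have ha : 0 < min c₁ Real.pi / Real.pi * c₂ :=
    mul_pos (div_pos (lt_min hc₁ hpi) hpi) hc₂
  have hlim := tendsto_order ha (show (0 : ℝ) < 2 * C by linarith) hbounds
  have hlim' : Tendsto (fun r : ℝ => ((Real.log (T f r) / Real.log r : ℝ) : EReal)) atTop
      (𝓝 (ρ : EReal)) := (continuous_coe_real_ereal.tendsto ρ).comp hlim
  have hpos : ∀ᶠ r : ℝ in atTop, 0 < T (deriv f) r := by
    filter_upwards [eventually_ge_atTop r₀, eventually_gt_atTop 0,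
      exp_beats hρ0 hc₂ ‖f 0‖] with r hr hr0 hr1
    obtain ⟨θ₀, hθ₀⟩ := hflat' r hr
    exact T_deriv_pos hf hr0 (hr1.trans_le (hθ₀ θ₀ (by rw [sub_self, abs_zero]; exact hc₁.le)))
  refine ⟨ρ, f, hρ0, by linarith, hf, ?_, hlim'.limsup_eq, hlim'.liminf_eq,
    ⟨_, _, ha, by linarith, hbounds⟩, hpos, ?_⟩
  · have hnp := Pool.Agent.NevChar.not_poly (f := f) (r₀ := r₀) hρ0 hc₂ (by
      intro r hr
      obtain ⟨θ₀, hθ₀⟩ := hflat' r hr
      exact ⟨θ₀, hθ₀ θ₀ (by rw [sub_self, abs_zero]; exact hc₁.le)⟩)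
    intro p
    by_contra hcon
    push Not at hcon
    exact hnp ⟨p, hcon⟩
  · obtain ⟨ε, hε, R, hR⟩ := Pool.Agent.NevChar.assembly f hf hf0 ρ C c₁ c₂ r₀ hρ0 hρ1 hC hc₁
      hc₂ hgrow hflat
    have h1 : ((1 + ε : ℝ) : EReal) ≤
        liminf (fun r : ℝ => ((T f r / T (deriv f) r : ℝ) : EReal)) atTop := by
      refine le_liminf_of_le ?_ ?_
      · isBoundedDefault
      filter_upwards [hpos, eventually_ge_atTop R] with r hr hr1
      have h2 := hR r hr1
      have h3 : (1 + ε) * T (deriv f) r < T f r := by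
        rw [T_eq hf, T_eq hf.deriv]
        simpa only [Real.posLog_apply] using h2
      exact EReal.coe_le_coe_iff.mpr ((le_div_iff₀ hr).mpr h3.le)
    refine lt_of_lt_of_le ?_ h1
    exact_mod_cast (by linarith : (1 : ℝ) < 1 + ε)

end Pool.Agent.Results.MP_2ed15d_an.RegularGrowth
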